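import Mathlib
import Pool.Agent.H38.EQ.Targets

/-!
# Equidistribution of admissible tuples: squarefull part between `Y` and `X ^ η`

Row `SQM` of the counting side.
-/

set_option autoImplicit false

open Finset

namespace Pool.Agent.H73.EQR

open Pool.Agent.H38.AE.Statement (Admissible radical)
open Pool.Agent.H38.AT (height)
open Pool.Agent.H82.AS (Sqf ex)
open Pool.Agent.H38.PS (pd)
open Pool.Agent.H38.EQ

theorem pr_pos {n : ℕ} (x : Fin n → ℤ) (h : Admissible x) : 1 ≤ pr x := by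
  rw [pr, Nat.one_le_iff_ne_zero, Int.natAbs_ne_zero]
  exact Finset.prod_ne_zero_iff.mpr fun i _ => h.1 i

theorem one_le_pd (n : ℕ) : (1 : ℝ) ≤ (pd n.primeFactors : ℝ) := by
  have : 1 ≤ pd n.primeFactors :=
    Nat.one_le_iff_ne_zero.mpr (Finset.prod_ne_zero_iff.mpr fun p hp =>
      (Nat.prime_of_mem_primeFactors hp).ne_zero)
  exact_mod_cast this

theorem pr_eq {n : ℕ} (x : Fin n → ℤ) :
    (pr x : ℝ) = (radical (∏ i, x i) : ℝ) * ex (pr x) := by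
  have h1 := one_le_pd (pr x)
  have h2 : (radical (∏ i, x i) : ℝ) = (pd (pr x).primeFactors : ℝ) := rfl
  rw [h2, ex, mul_div_cancel₀]
  linarith

theorem pf_SQM (h1 : T_ADN) (h2 : T_SQN) (h3 : Pool.Agent.H82.AS.T_SQB) : T_SQM := by
  intro n hn
  obtain ⟨C1, hC1, hA⟩ := h1 n hn
  obtain ⟨C2, hC2, hS⟩ := h2 n hn
  have hn0 : (0 : ℝ) < n := by
    have : 0 < n := by omega
    exact_mod_cast this
  have hn3 : (3 : ℝ) ≤ n := by exact_mod_cast hn
  have hinv : 0 < 1 / (n : ℝ) := by positivity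
  have hinv3 : 1 / (n : ℝ) ≤ 1 / 3 := by
    apply one_div_le_one_div_of_le (by norm_num) hn3
  have e8 : 1 / (8 * (n : ℝ)) = 1 / 8 * (1 / (n : ℝ)) := by ring
  have e4 : 1 / (4 * (n : ℝ)) = 1 / 4 * (1 / (n : ℝ)) := by ring
  have e2 : 2 / (n : ℝ) = 2 * (1 / (n : ℝ)) := by ring
  refine ⟨1 / 6 * (1 / (n : ℝ)), 1 / (8 * (n : ℝ)), C1 * (C2 + 1), by positivity, by positivity,
    by positivity, ?_⟩
  intro X Y F hX hY hF
  have hX0 : 0 < X := by linarith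
  have hY0 : 0 < Y := by linarith
  set η : ℝ := 1 / 6 * (1 / (n : ℝ)) with hη
  set u : ℝ := 1 / (n : ℝ) with hu
  -- the squarefull parts
  set G : Finset ℕ := F.image (fun x => H82.AS.sq (pr x)) with hG
  have hGD : ∀ D ∈ G, Sqf D ∧ 1 ≤ D ∧ Y ≤ (D : ℝ) ∧ (D : ℝ) ≤ X ^ η ∧ 1 ≤ ex D ∧
      ex D ≤ D := by
    intro D hD
    obtain ⟨x, hx, rfl⟩ := Finset.mem_image.mp hD
    obtain ⟨ha, hr, hy, he⟩ := hF x hx
    have hp := pr_pos x ha
    obtain ⟨b1, b2, b3, b4, b5, b6, b7⟩ := h3 (pr x) hp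
    have hD1 : 1 ≤ H82.AS.sq (pr x) := Nat.pos_of_dvd_of_pos b2 hp
    have hb := h3 (H82.AS.sq (pr x)) hD1
    exact ⟨b1, hD1, hy, he, (b5 _ b2).1, hb.2.2.2.2.2.1⟩
  have hcard : (F.card : ℝ) = ∑ D ∈ G, ((F.filter fun x => H82.AS.sq (pr x) = D).card : ℝ) := by
    rw [Finset.card_eq_sum_card_image (fun x => H82.AS.sq (pr x)) F]
    push_cast
    rfl
  have hterm : ∀ D ∈ G, ((F.filter fun x => H82.AS.sq (pr x) = D).card : ℝ) ≤
      C1 * X ^ (1 - u) * ((D : ℝ) ^ (1 / (4 * (n : ℝ))) * ex D ^ (1 - u) / D) +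
      C1 * X ^ (1 - 3 / 2 * u - η) := by
    intro D hD
    obtain ⟨hsq, hD1, hyD, hDX, he1, heD⟩ := hGD D hD
    have hD1' : (1 : ℝ) ≤ D := by exact_mod_cast hD1
    have hD0 : (0 : ℝ) < D := by linarith
    have hT1 : 1 ≤ X * ex D := by nlinarith
    have he0 : 0 < ex D := by linarith
    have h := (hA D (X * ex D) (F.filter fun x => H82.AS.sq (pr x) = D) hD1 hT1 (by
      intro x hx
      obtain ⟨hxF, hxD⟩ := Finset.mem_filter.mp hx
      obtain ⟨ha, hr, hy, he⟩ := hF x hxF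
      have hp := pr_pos x ha
      obtain ⟨b1, b2, b3, b4, b5, b6, b7⟩ := h3 (pr x) hp
      refine ⟨ha, hxD ▸ b2, ?_⟩
      rw [pr_eq x, ← b3, hxD]
      exact mul_le_mul_of_nonneg_right hr he0.le)).1
    refine h.trans ?_
    rw [Real.mul_rpow hX0.le he0.le, Real.mul_rpow hX0.le he0.le]
    have q1 : (D : ℝ) ^ (1 / (8 * (n : ℝ))) ≤ (D : ℝ) ^ (1 / (4 * (n : ℝ))) := by
      apply Real.rpow_le_rpow_of_exponent_le hD1'
      rw [e8, e4]
      nlinarith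
    have q2 : (D : ℝ) ^ (1 / (8 * (n : ℝ))) ≤ (D : ℝ) := by
      calc (D : ℝ) ^ (1 / (8 * (n : ℝ))) ≤ (D : ℝ) ^ (1 : ℝ) := by
            apply Real.rpow_le_rpow_of_exponent_le hD1'
            rw [e8]
            linarith
        _ = D := Real.rpow_one _
    have q3 : ex D ^ (1 - 2 / (n : ℝ)) ≤ (D : ℝ) := by
      calc ex D ^ (1 - 2 / (n : ℝ)) ≤ ex D ^ (1 : ℝ) := by
            apply Real.rpow_le_rpow_of_exponent_le he1
            rw [e2]
            linarith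
        _ = ex D := Real.rpow_one _
        _ ≤ D := heD
    have hq0 : (0 : ℝ) ≤ (D : ℝ) ^ (1 / (8 * (n : ℝ))) := by positivity
    have hXa : (0 : ℝ) ≤ X ^ (1 - u) := by positivity
    have hXb : (0 : ℝ) ≤ X ^ (1 - 2 / (n : ℝ)) := by positivity
    have hea : (0 : ℝ) ≤ ex D ^ (1 - u) := by positivity
    have heb : (0 : ℝ) ≤ ex D ^ (1 - 2 / (n : ℝ)) := by positivity
    have t1 : (D : ℝ) ^ (1 / (8 * (n : ℝ))) * (X ^ (1 - u) * ex D ^ (1 - u) / D) ≤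
        X ^ (1 - u) * ((D : ℝ) ^ (1 / (4 * (n : ℝ))) * ex D ^ (1 - u) / D) := by
      have : (D : ℝ) ^ (1 / (8 * (n : ℝ))) * (X ^ (1 - u) * ex D ^ (1 - u) / D) =
        X ^ (1 - u) * ((D : ℝ) ^ (1 / (8 * (n : ℝ))) * ex D ^ (1 - u) / D) := by ring
      rw [this]
      apply mul_le_mul_of_nonneg_left _ hXa
      apply div_le_div_of_nonneg_right _ hD0.le
      exact mul_le_mul_of_nonneg_right q1 hea
    have t2 : (D : ℝ) ^ (1 / (8 * (n : ℝ))) *
        (X ^ (1 - 2 / (n : ℝ)) * ex D ^ (1 - 2 / (n : ℝ))) ≤ X ^ (1 - 3 / 2 * u - η) := by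
      calc (D : ℝ) ^ (1 / (8 * (n : ℝ))) * (X ^ (1 - 2 / (n : ℝ)) * ex D ^ (1 - 2 / (n : ℝ)))
          ≤ (D : ℝ) * (X ^ (1 - 2 / (n : ℝ)) * D) := by
            apply mul_le_mul q2 _ (by positivity) hD0.le
            exact mul_le_mul_of_nonneg_left q3 hXb
        _ ≤ X ^ η * (X ^ (1 - 2 / (n : ℝ)) * X ^ η) := by
            apply mul_le_mul hDX _ (by positivity) (by positivity)
            exact mul_le_mul_of_nonneg_left hDX hXb
        _ = X ^ (1 - 3 / 2 * u - η) := by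
            rw [← Real.rpow_add hX0, ← Real.rpow_add hX0]
            rw [e2, hη, hu]
            ring_nf
    calc C1 * (D : ℝ) ^ (1 / (8 * (n : ℝ))) * (X ^ (1 - u) * ex D ^ (1 - u) / D +
          X ^ (1 - 2 / (n : ℝ)) * ex D ^ (1 - 2 / (n : ℝ)))
        = C1 * ((D : ℝ) ^ (1 / (8 * (n : ℝ))) * (X ^ (1 - u) * ex D ^ (1 - u) / D)) +
          C1 * ((D : ℝ) ^ (1 / (8 * (n : ℝ))) *
            (X ^ (1 - 2 / (n : ℝ)) * ex D ^ (1 - 2 / (n : ℝ)))) := by ring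
      _ ≤ C1 * (X ^ (1 - u) * ((D : ℝ) ^ (1 / (4 * (n : ℝ))) * ex D ^ (1 - u) / D)) +
          C1 * X ^ (1 - 3 / 2 * u - η) :=
          add_le_add (mul_le_mul_of_nonneg_left t1 hC1.le) (mul_le_mul_of_nonneg_left t2 hC1.le)
      _ = _ := by ring
  have hGcard : (G.card : ℝ) ≤ X ^ η := by
    have hsub : G ⊆ Finset.Icc 1 ⌊X ^ η⌋₊ := by
      intro D hD
      obtain ⟨hsq, hD1, hyD, hDX, he1, heD⟩ := hGD D hD
      rw [Finset.mem_Icc]
      exact ⟨hD1, Nat.le_floor hDX⟩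
    calc (G.card : ℝ) ≤ ((Finset.Icc 1 ⌊X ^ η⌋₊).card : ℝ) := by
          exact_mod_cast Finset.card_le_card hsub
      _ = (⌊X ^ η⌋₊ : ℝ) := by rw [Nat.card_Icc]; simp
      _ ≤ X ^ η := Nat.floor_le (by positivity)
  have hS' := hS Y G hY (fun D hD => by
    obtain ⟨hsq, hD1, hyD, _⟩ := hGD D hD
    exact ⟨hsq, hD1, hyD⟩)
  have hXm : X ^ (1 - 3 / 2 * u - η) * X ^ η ≤ X ^ (1 - u - 1 / (8 * (n : ℝ))) := by
    rw [← Real.rpow_add hX0]
    apply Real.rpow_le_rpow_of_exponent_le hX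
    rw [e8]
    linarith
  calc (F.card : ℝ) = ∑ D ∈ G, ((F.filter fun x => H82.AS.sq (pr x) = D).card : ℝ) := hcard
    _ ≤ ∑ D ∈ G, (C1 * X ^ (1 - u) * ((D : ℝ) ^ (1 / (4 * (n : ℝ))) * ex D ^ (1 - u) / D) +
          C1 * X ^ (1 - 3 / 2 * u - η)) := Finset.sum_le_sum hterm
    _ = C1 * X ^ (1 - u) * (∑ D ∈ G, (D : ℝ) ^ (1 / (4 * (n : ℝ))) * ex D ^ (1 - u) / D) +
          (G.card : ℝ) * (C1 * X ^ (1 - 3 / 2 * u - η)) := by
        rw [Finset.sum_add_distrib, ← Finset.mul_sum, Finset.sum_const, nsmul_eq_mul]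
    _ ≤ C1 * X ^ (1 - u) * (C2 * Y ^ (-(1 / (8 * (n : ℝ))))) +
          X ^ η * (C1 * X ^ (1 - 3 / 2 * u - η)) := by
        apply add_le_add
        · exact mul_le_mul_of_nonneg_left hS' (by positivity)
        · exact mul_le_mul_of_nonneg_right hGcard (by positivity)
    _ = C1 * C2 * (Y ^ (-(1 / (8 * (n : ℝ)))) * X ^ (1 - u)) +
          C1 * (X ^ (1 - 3 / 2 * u - η) * X ^ η) := by ring
    _ ≤ C1 * (C2 + 1) * (Y ^ (-(1 / (8 * (n : ℝ)))) * X ^ (1 - u)) +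
          C1 * (C2 + 1) * X ^ (1 - u - 1 / (8 * (n : ℝ))) := by
        apply add_le_add
        · apply mul_le_mul_of_nonneg_right _ (by positivity)
          nlinarith
        · apply mul_le_mul _ hXm (by positivity) (by positivity)
          nlinarith
    _ = C1 * (C2 + 1) * (Y ^ (-(1 / (8 * (n : ℝ)))) * X ^ (1 - u) +
          X ^ (1 - u - 1 / (8 * (n : ℝ)))) := by ring

end Pool.Agent.H73.EQR
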